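import Mathlib

/-!
# Additive maps which respect the inversions of the numbers `z + c`
-/

set_option autoImplicit false

namespace Pool.Agent.N113.SG

/-- The additive map `D` vanishes at the algebraic numbers, and it satisfies the rule of differentiation
for the inverse of `t i + c`, for all the numbers `t i` and `c = 0, 1, 2, …`. -/
structure Adm {κ : Type} (t : κ → ℂ) (D : ℂ →ₗ[ℚ] ℂ) : Prop where
  alg : ∀ a : ℂ, IsAlgebraic ℚ a → D a = 0
  inv : ∀ (i : κ) (c : ℕ), D (t i + c)⁻¹ = -D (t i) / (t i + c) ^ 2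

theorem Adm.add {κ : Type} {t : κ → ℂ} {D D' : ℂ →ₗ[ℚ] ℂ} (h : Adm t D) (h' : Adm t D') :
    Adm t (D + D') :=
  ⟨fun a ha => by rw [LinearMap.add_apply, h.alg a ha, h'.alg a ha, add_zero],
    fun i c => by rw [LinearMap.add_apply, LinearMap.add_apply, h.inv, h'.inv]; ring⟩

theorem Adm.smul {κ : Type} {t : κ → ℂ} {D : ℂ →ₗ[ℚ] ℂ} (h : Adm t D) (a : ℂ) :
    Adm t (a • D) :=
  ⟨fun b hb => by rw [LinearMap.smul_apply, h.alg b hb, smul_zero],
    fun i c => by
      rw [LinearMap.smul_apply, LinearMap.smul_apply, h.inv, smul_eq_mul, smul_eq_mul]; ring⟩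

theorem Adm.zero {κ : Type} {t : κ → ℂ} : Adm t (0 : ℂ →ₗ[ℚ] ℂ) :=
  ⟨fun _ _ => rfl, fun i c => by simp⟩

/-- The coordinates: the numbers `t i`, the values at these numbers, and further numbers. -/
def co {α π κ : Type} (F : ℂ → α → ℂ) (p : π → ℂ) (t : κ → ℂ) : κ × Option α ⊕ π → ℂ :=
  Sum.elim (fun x => x.2.elim (t x.1) (F (t x.1))) p

/-- The space of the vectors of the values of the maps `D` at the coordinates. -/
def Der {α π κ : Type} (F : ℂ → α → ℂ) (p : π → ℂ) (t : κ → ℂ) :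
    Submodule ℂ (κ × Option α ⊕ π → ℂ) where
  carrier := {v | ∃ D : ℂ →ₗ[ℚ] ℂ, Adm t D ∧ v = fun x => D (co F p t x)}
  zero_mem' := ⟨0, Adm.zero, rfl⟩
  add_mem' := by
    rintro _ _ ⟨D, hD, rfl⟩ ⟨D', hD', rfl⟩
    exact ⟨D + D', hD.add hD', rfl⟩
  smul_mem' := by
    rintro c _ ⟨D, hD, rfl⟩
    exact ⟨c • D, hD.smul c, rfl⟩

/-- finite tuples of numbers -/
structure Tup where
  κ : Type
  [fin : Fintype κ]
  t : κ → ℂ

attribute [instance] Tup.fin

/-- one more number -/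
abbrev Tup.add (A : Tup) (w : ℂ) : Tup := ⟨Option A.κ, fun o => o.elim w A.t⟩

/-- Fractional linear equivalence over `ℚ`. -/
def Fl (z w : ℂ) : Prop := ∃ a b c d : ℚ, a * d - b * c ≠ 0 ∧ w * (c * z + d) = a * z + b

theorem Fl.symm {z w : ℂ} (h : Fl z w) : Fl w z := by
  obtain ⟨a, b, c, d, h1, h2⟩ := h
  refine ⟨d, -b, -c, a, fun h => h1 (by linarith), ?_⟩
  push_cast
  linear_combination -h2

theorem Fl.trans {z w v : ℂ} (h : Fl z w) (h' : Fl w v) : Fl z v := by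
  obtain ⟨a, b, c, d, h1, h2⟩ := h
  obtain ⟨a', b', c', d', h3, h4⟩ := h'
  refine ⟨a' * a + b' * c, a' * b + b' * d, c' * a + d' * c, c' * b + d' * d, ?_, ?_⟩
  · have h5 := mul_ne_zero h3 h1
    intro h6
    apply h5
    linear_combination h6
  · push_cast
    linear_combination ((c : ℂ) * z + d) * h4 - ((v : ℂ) * c' - a') * h2

/-- classes of tuples which are closed under the addition of transcendental numbers which are
inequivalent to the members of the tuple -/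
structure Cls (X : Set ℂ) (G : Tup → Prop) : Prop where
  mem : ∀ A, G A → ∀ i, A.t i ∈ X
  ne : ∀ u ∈ X, ∀ c : ℕ, u + c ≠ 0
  lin : ∀ x : ℂ, ∃ N : ℕ, ∀ m ≥ N, m * Complex.I + x ∈ X
  frac : ∀ u ∈ X, Transcendental ℚ u → ∃ N : ℕ, ∀ c ≥ N, -(c : ℂ) / (u * (u + c)) ∈ X
  add : ∀ (A : Tup) (w : ℂ), G A → w ∈ X → Transcendental ℚ w → (∀ i, ¬ Fl (A.t i) w) →
    G (A.add w)

end Pool.Agent.N113.SG
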