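import Pool.Agent.N113.SG.Def

/-!
# Extensions of tuples of points
-/

set_option autoImplicit false
set_option linter.unusedSectionVars false

namespace Pool.Agent.N113.SG

open Module

theorem Adm.comp {A B : Tup} {g : A.κ → B.κ} (hg : ∀ i, B.t (g i) = A.t i) {D : ℂ →ₗ[ℚ] ℂ}
    (h : Adm B.t D) : Adm A.t D :=
  ⟨h.alg, fun i c => by rw [← hg]; exact h.inv _ _⟩

variable {α π : Type} [Fintype α] [Fintype π] (F : ℂ → α → ℂ) (p : π → ℂ) (G : Tup → Prop)

/-- the map on the names of the coordinates -/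
def cmap {A B : Tup} (g : A.κ → B.κ) : A.κ × Option α ⊕ π → B.κ × Option α ⊕ π :=
  Sum.map (Prod.map g id) id

theorem co_comp {A B : Tup} {g : A.κ → B.κ} (hg : ∀ i, B.t (g i) = A.t i)
    (x : A.κ × Option α ⊕ π) : co F p B.t (cmap g x) = co F p A.t x := by
  rcases x with ⟨i, _ | a⟩ | a
  · exact hg i
  · exact congrArg (fun t : ℂ => F t a) (hg i)
  · rfl

/-- the vectors which vanish on a part of the tuple -/
noncomputable def Ker {A : Tup} (B : Tup) (g : A.κ → B.κ) :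
    Submodule ℂ (B.κ × Option α ⊕ π → ℂ) :=
  Der F p B.t ⊓ LinearMap.ker (LinearMap.funLeft ℂ ℂ (cmap (α := α) (π := π) g))

theorem mem_Ker {A B : Tup} {g : A.κ → B.κ} (hg : ∀ i, B.t (g i) = A.t i)
    (v : B.κ × Option α ⊕ π → ℂ) :
    v ∈ Ker F p B g ↔ ∃ D : ℂ →ₗ[ℚ] ℂ, Adm B.t D ∧ (v = fun x => D (co F p B.t x)) ∧
      ∀ x, D (co F p A.t x) = 0 := by
  constructor
  · rintro ⟨⟨D, hD, rfl⟩, h2⟩
    refine ⟨D, hD, rfl, fun x => ?_⟩
    have h3 := congrFun (LinearMap.mem_ker.1 h2) x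
    rw [LinearMap.funLeft_apply, co_comp F p hg] at h3
    exact h3
  · rintro ⟨D, hD, rfl, h⟩
    refine ⟨⟨D, hD, rfl⟩, LinearMap.mem_ker.2 (funext fun x => ?_)⟩
    rw [LinearMap.funLeft_apply, co_comp F p hg]
    exact h x

/-- extensions of tuples for which the space of vectors does not grow faster than the number of
points allows -/
def Ext (A B : Tup) : Prop :=
  G B ∧ ∃ g : A.κ → B.κ, (∀ i, B.t (g i) = A.t i) ∧
    finrank ℂ (Ker F p B g) + Fintype.card α * Fintype.card A.κ ≤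
      Fintype.card α * Fintype.card B.κ

variable {F p G} in
theorem Ext.good {A B : Tup} (h : Ext F p G A B) : G B := h.1

theorem Ext.refl {A : Tup} (hA : G A) : Ext F p G A A := by
  refine ⟨hA, id, fun _ => rfl, ?_⟩
  have h1 : Ker F p A (id : A.κ → A.κ) = ⊥ := by
    rw [eq_bot_iff]
    rintro v ⟨-, h⟩
    rw [Submodule.mem_bot]
    funext x
    have h2 := congrFun (LinearMap.mem_ker.1 h) x
    rw [LinearMap.funLeft_apply] at h2
    have h3 : cmap (α := α) (π := π) (id : A.κ → A.κ) x = x := by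
      rcases x with ⟨i, a⟩ | a <;> rfl
    rw [h3] at h2
    exact h2
  rw [h1, finrank_bot, zero_add]

variable {F p G} in
theorem Ext.trans {A B C : Tup} (h : Ext F p G A B) (h' : Ext F p G B C) : Ext F p G A C := by
  obtain ⟨-, g, hg, h1⟩ := h
  obtain ⟨hC, g', hg', h2⟩ := h'
  have hgg : ∀ i, C.t ((g' ∘ g) i) = A.t i := fun i => by
    rw [Function.comp_apply, hg', hg]
  refine ⟨hC, g' ∘ g, hgg, ?_⟩
  let L : Ker F p C (g' ∘ g) →ₗ[ℂ] (B.κ × Option α ⊕ π → ℂ) :=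
    (LinearMap.funLeft ℂ ℂ (cmap g')).domRestrict (Ker F p C (g' ∘ g))
  have hL : ∀ v : Ker F p C (g' ∘ g), L v =
      fun x => (v : C.κ × Option α ⊕ π → ℂ) (cmap g' x) := fun v => rfl
  have h3 := L.finrank_range_add_finrank_ker
  have h4 : finrank ℂ (LinearMap.range L) ≤ finrank ℂ (Ker F p B g) := by
    refine Submodule.finrank_mono ?_
    rintro _ ⟨v, rfl⟩
    obtain ⟨D, hD, hv, h5⟩ := (mem_Ker F p hgg _).1 v.2
    refine (mem_Ker F p hg _).2 ⟨D, hD.comp hg', ?_, h5⟩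
    rw [hL, hv]
    funext x
    exact congrArg D (co_comp F p hg' x)
  have h5 : finrank ℂ (LinearMap.ker L) ≤ finrank ℂ (Ker F p C g') := by
    rw [← Submodule.finrank_map_subtype_eq]
    refine Submodule.finrank_mono ?_
    rintro _ ⟨v, hv, rfl⟩
    exact ⟨v.2.1, hv⟩
  omega

variable {F p G} in
theorem Ext.adm {A B : Tup} (h : Ext F p G A B) {D : ℂ →ₗ[ℚ] ℂ} (hD : Adm B.t D) : Adm A.t D := by
  obtain ⟨-, g, hg, -⟩ := h
  exact hD.comp hg

variable {F p G} in
theorem Ext.vanish {A B : Tup} (h : Ext F p G A B) {D : ℂ →ₗ[ℚ] ℂ}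
    (hD : ∀ x, D (co F p B.t x) = 0) (x : A.κ × Option α ⊕ π) : D (co F p A.t x) = 0 := by
  obtain ⟨-, g, hg, -⟩ := h
  rw [← co_comp F p hg]
  exact hD _

variable {F p G} in
theorem Ext.mem {A B : Tup} (h : Ext F p G A B) (i : A.κ) : ∃ k, B.t k = A.t i := by
  obtain ⟨-, g, hg, -⟩ := h
  exact ⟨g i, hg i⟩

variable {F p G} in
/-- **Adding a point.** -/
theorem ext_add {A : Tup} {w : ℂ} (hG : G (A.add w))
    (h : ∀ D : ℂ →ₗ[ℚ] ℂ, Adm (A.add w).t D → (∀ x, D (co F p A.t x) = 0) → D w = 0) :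
    Ext F p G A (A.add w) := by
  have hg : ∀ i, (A.add w).t (some i) = A.t i := fun _ => rfl
  refine ⟨hG, some, hg, ?_⟩
  let φ : Ker F p (A.add w) (some : A.κ → (A.add w).κ) →ₗ[ℂ] (α → ℂ) :=
    (LinearMap.funLeft ℂ ℂ (fun a : α =>
      (Sum.inl (none, some a) : (A.add w).κ × Option α ⊕ π))).domRestrict _
  have hφ : Function.Injective φ := by
    rw [← LinearMap.ker_eq_bot, eq_bot_iff]
    rintro ⟨v, hv⟩ h8
    rw [Submodule.mem_bot]
    apply Subtype.ext
    obtain ⟨D, hD, rfl, h0⟩ := (mem_Ker F p hg v).1 hv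
    have hw := h D hD h0
    funext x
    rcases x with ⟨_ | i, _ | a⟩ | a
    · exact hw
    · exact congrFun (LinearMap.mem_ker.1 h8) a
    · exact h0 (Sum.inl (i, none))
    · exact h0 (Sum.inl (i, some a))
    · exact h0 (Sum.inr a)
  have h6 := LinearMap.finrank_le_finrank_of_injective hφ
  rw [finrank_pi] at h6
  have h7 : Fintype.card (A.add w).κ = Fintype.card A.κ + 1 := Fintype.card_option
  rw [h7, mul_add, mul_one]
  omega

end Pool.Agent.N113.SG
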