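import Pool.Agent.N113.SG.Tr

/-!
# The product rule for all polynomials in the coordinates, from extensions
-/

set_option autoImplicit false
set_option linter.unusedSectionVars false

namespace Pool.Agent.N113.SG

open Module MvPolynomial

variable {α π : Type} [Fintype α] [Fintype π] {F : ℂ → α → ℂ} {p : π → ℂ} {X : Set ℂ}
  {G : Tup → Prop}

/-- **Squares of points.** -/
theorem ext_sq (hX : Cls X G) {A : Tup} (hA : G A) (i : A.κ) (hu : Transcendental ℚ (A.t i)) :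
    ∃ B, Ext F p G A B ∧ ∀ D : ℂ →ₗ[ℚ] ℂ, Adm B.t D →
      D (A.t i ^ 2) = 2 * A.t i * D (A.t i) := by
  obtain ⟨u, hui⟩ : ∃ u, u = A.t i := ⟨_, rfl⟩
  rw [← hui] at hu ⊢
  have huX : u ∈ X := by rw [hui]; exact hX.mem A hA i
  have huc : ∀ c : ℕ, u + c ≠ 0 := hX.ne u huX
  have hu0 : u ≠ 0 := by
    have := huc 0
    rwa [Nat.cast_zero, add_zero] at this
  have hfin := bad_finite A (fun c => -(c : ℂ) / (u * (u + c))) (by
    intro c c' hc hc' h
    refine inj_frac hu c c' hc hc' _ _ ?_ ?_ h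
    · exact div_mul_cancel₀ _ (mul_ne_zero hu0 (huc c))
    · exact div_mul_cancel₀ _ (mul_ne_zero hu0 (huc c')))
  obtain ⟨M, hM⟩ := hfin.bddAbove
  obtain ⟨N, hN⟩ := hX.frac u huX hu
  obtain ⟨c, hcdef⟩ : ∃ c : ℕ, c = M + N + 1 := ⟨_, rfl⟩
  have hc1 : 1 ≤ c := by omega
  have hcM : c ∉ bad A (fun c => -(c : ℂ) / (u * (u + c))) := fun h => by
    have := hM h
    omega
  have hcC : (c : ℂ) ≠ 0 := by exact_mod_cast (by omega : c ≠ 0)
  have hwX : -(c : ℂ) / (u * (u + c)) ∈ X := hN c (by omega)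
  obtain ⟨w, hwdef⟩ : ∃ w : ℂ, w = -(c : ℂ) / (u * (u + c)) := ⟨_, rfl⟩
  rw [← hwdef] at hwX
  have hw : w * (u * (u + c)) = -c := by
    rw [hwdef]
    exact div_mul_cancel₀ _ (mul_ne_zero hu0 (huc c))
  have hw0 : w ≠ 0 := by
    rintro rfl
    rw [zero_mul] at hw
    exact hcC (neg_eq_zero.1 hw.symm)
  have hwt : Transcendental ℚ w := by
    intro h
    have h1 : (1 : ℂ) * u ^ 2 + c * u + c * w⁻¹ = 0 := by
      refine mul_left_cancel₀ hw0 ?_
      rw [mul_zero]
      have h2 : w * w⁻¹ = 1 := mul_inv_cancel₀ hw0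
      linear_combination hw + (c : ℂ) * h2
    have h2 := (quad hu isAlgebraic_one (alg_nat c) ((alg_nat c).mul h.inv) h1).1
    exact one_ne_zero h2
  have hG : G (A.add w) := hX.add A w hA hwX hwt fun k hk => hcM ⟨hc1, k, by
    rw [hwdef] at hk
    exact hk⟩
  have hweq : w = -(u + (0 : ℕ))⁻¹ + (u + c)⁻¹ := by
    have h1 := huc c
    rw [hwdef, Nat.cast_zero, add_zero]
    field_simp
    ring
  have hDw : ∀ D : ℂ →ₗ[ℚ] ℂ, Adm A.t D → D w = D u / u ^ 2 - D u / (u + c) ^ 2 := by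
    intro D hD
    have h1 := hD.inv i 0
    have h2 := hD.inv i c
    rw [← hui] at h1 h2
    rw [hweq, map_add, map_neg, h1, h2, Nat.cast_zero, add_zero]
    ring
  have hE : Ext F p G A (A.add w) := ext_add hG fun D hD h0 => by
    have h1 : Adm A.t D := hD.comp (A := A) (g := some) fun _ => rfl
    have h2 : D u = 0 := by
      rw [hui]
      exact h0 (Sum.inl (i, none))
    rw [hDw D h1, h2]
    simp
  refine ⟨A.add w, hE, fun D hD => ?_⟩
  have h1 := hD.inv none 0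
  change D (w + (0 : ℕ))⁻¹ = -D w / (w + (0 : ℕ)) ^ 2 at h1
  rw [Nat.cast_zero, add_zero, hDw D (hE.adm hD)] at h1
  have h2 : u ^ 2 = (-(c : ℚ)) • w⁻¹ + (-(c : ℚ)) • u := by
    rw [Rat.smul_def, Rat.smul_def]
    push_cast
    refine mul_left_cancel₀ hw0 ?_
    have h3 : w * w⁻¹ = 1 := mul_inv_cancel₀ hw0
    linear_combination hw + (c : ℂ) * h3
  rw [h2, map_add, map_smul, map_smul, h1, Rat.smul_def, Rat.smul_def]
  push_cast
  have h5 := huc c
  rw [hwdef]
  field_simp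
  ring

/-- after an extension, every admissible map takes at `x` the value given by the vector `c` -/
def Rz (F : ℂ → α → ℂ) (p : π → ℂ) (G : Tup → Prop) (A : Tup) (x : ℂ) (c : A.κ × Option α ⊕ π → ℂ) : Prop :=
  ∀ B, Ext F p G A B → ∃ C, Ext F p G B C ∧ ∀ D : ℂ →ₗ[ℚ] ℂ, Adm C.t D →
    D x = ∑ y, c y * D (co F p A.t y)

theorem Rz.const (A : Tup) (q : ℚ) : Rz F p G A q 0 := fun B hB =>
  ⟨B, Ext.refl F p G hB.good, fun D hD => by
    rw [hD.alg _ (alg_rat q)]
    simp⟩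

theorem Rz.coord (A : Tup) [DecidableEq (A.κ × Option α ⊕ π)] (y : A.κ × Option α ⊕ π) :
    Rz F p G A (co F p A.t y) (Pi.single y 1) := fun B hB =>
  ⟨B, Ext.refl F p G hB.good, fun D _ => by
    rw [Finset.sum_eq_single y]
    · rw [Pi.single_eq_same, one_mul]
    · intro x _ hx
      rw [Pi.single_eq_of_ne hx, zero_mul]
    · intro h
      exact absurd (Finset.mem_univ _) h⟩

theorem Rz.add {A : Tup} {x y : ℂ} {c d : A.κ × Option α ⊕ π → ℂ} (hx : Rz F p G A x c)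
    (hy : Rz F p G A y d) : Rz F p G A (x + y) (c + d) := fun B hB => by
  obtain ⟨C, hC, h1⟩ := hx B hB
  obtain ⟨C', hC', h2⟩ := hy C (hB.trans hC)
  refine ⟨C', hC.trans hC', fun D hD => ?_⟩
  rw [map_add, h1 D (hC'.adm hD), h2 D hD, ← Finset.sum_add_distrib]
  exact Finset.sum_congr rfl fun i _ => by rw [Pi.add_apply, add_mul]

theorem Rz.smul {A : Tup} {x : ℂ} {c : A.κ × Option α ⊕ π → ℂ} (hx : Rz F p G A x c) (q : ℚ) :
    Rz F p G A (q * x) ((q : ℂ) • c) := fun B hB => by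
  obtain ⟨C, hC, h1⟩ := hx B hB
  refine ⟨C, hC, fun D hD => ?_⟩
  rw [← Rat.smul_def, map_smul, h1 D hD, Rat.smul_def, Finset.mul_sum]
  exact Finset.sum_congr rfl fun i _ => by rw [Pi.smul_apply, smul_eq_mul, mul_assoc]

theorem Rz.congr {A : Tup} {x y : ℂ} {c d : A.κ × Option α ⊕ π → ℂ} (hx : Rz F p G A x c)
    (h1 : x = y) (h2 : c = d) : Rz F p G A y d := by rw [← h1, ← h2]; exact hx

/-- **Squares.** -/
theorem Rz.sq (hX : Cls X G) {A : Tup} {x : ℂ} {c : A.κ × Option α ⊕ π → ℂ}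
    (hx : Rz F p G A x c) : Rz F p G A (x ^ 2) ((2 * x) • c) := fun B hB => by
  obtain ⟨C, hC, h1⟩ := hx B hB
  by_cases hxa : IsAlgebraic ℚ x
  · refine ⟨C, hC, fun D hD => ?_⟩
    have h2 := h1 D hD
    rw [hD.alg x hxa] at h2
    rw [hD.alg _ (hxa.pow 2)]
    simp only [Pi.smul_apply, smul_eq_mul, mul_assoc, ← Finset.mul_sum]
    rw [← h2]
    ring
  have hxt : Transcendental ℚ x := hxa
  have hxt' : Transcendental ℚ (-x) := fun h => hxa (by simpa using h.neg)
  -- the points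
  have hf1 := bad_finite C (fun m => m * Complex.I + x) (fun c c' _ _ h =>
    inj_lin hxt c c' _ _ rfl rfl h)
  have hf2 := bad_finite C (fun m => m * Complex.I + -x) (fun c c' _ _ h =>
    inj_lin hxt' c c' _ _ rfl rfl h)
  obtain ⟨M, hM⟩ := hf1.bddAbove
  obtain ⟨M', hM'⟩ := hf2.bddAbove
  obtain ⟨N, hN⟩ := hX.lin x
  obtain ⟨N', hN'⟩ := hX.lin (-x)
  obtain ⟨m, hm⟩ : ∃ m : ℕ, m = M + M' + N + N' + 1 := ⟨_, rfl⟩
  have huX := hN m (by omega)
  have hvX := hN' m (by omega)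
  obtain ⟨u, hu⟩ : ∃ u : ℂ, u = m * Complex.I + x := ⟨_, rfl⟩
  obtain ⟨v, hv'⟩ : ∃ v : ℂ, v = m * Complex.I + -x := ⟨_, rfl⟩
  have hv : v = m * Complex.I - x := by rw [hv', sub_eq_add_neg]
  rw [← hu] at huX
  rw [← hv'] at hvX
  have hmI : IsAlgebraic ℚ ((m : ℂ) * Complex.I) := (alg_nat m).mul alg_I
  have hut : Transcendental ℚ u := fun h => hxa (by
    have h2 := h.sub hmI
    rwa [hu, add_sub_cancel_left] at h2)
  have hvt : Transcendental ℚ v := fun h => hxa (by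
    have h2 := hmI.sub h
    rwa [hv, sub_sub_cancel] at h2)
  let C1 := C.add u
  let C2 := C1.add v
  have hG1 : G C1 := hX.add C u hC.good huX hut fun k hk => by
    have h2 : m ∈ bad C (fun m => m * Complex.I + x) := ⟨by omega, k, by
      rw [hu] at hk
      exact hk⟩
    have := hM h2
    omega
  have hG2 : G C2 := hX.add C1 v hG1 hvX hvt (by
    rintro (_ | k) hk
    · exact ne_lin hxt m m (by omega) u v hu hv hk
    · have h2 : m ∈ bad C (fun m => m * Complex.I + -x) :=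
        ⟨by omega, k, by
          rw [hv'] at hk
          exact hk⟩
      have := hM' h2
      omega)
  have hDu : ∀ E : Tup, ∀ D : ℂ →ₗ[ℚ] ℂ, Adm E.t D → D u = D x := by
    intro E D hD
    rw [hu, map_add, hD.alg _ hmI, zero_add]
  have hDv : ∀ E : Tup, ∀ D : ℂ →ₗ[ℚ] ℂ, Adm E.t D → D v = -D x := by
    intro E D hD
    rw [hv, map_sub, hD.alg _ hmI, zero_sub]
  have hx0 : ∀ E, Ext F p G C E → ∀ D : ℂ →ₗ[ℚ] ℂ, Adm E.t D → (∀ y, D (co F p E.t y) = 0) →
      D x = 0 := by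
    intro E hE D hD h0
    rw [h1 D (hE.adm hD)]
    refine Finset.sum_eq_zero fun y _ => ?_
    rw [((hB.trans hC).trans hE).vanish h0 y, mul_zero]
  have hE1 : Ext F p G C C1 := ext_add hG1 fun D hD h0 => by
    have h2 : Adm C.t D := hD.comp (A := C) (g := some) fun _ => rfl
    rw [hDu _ D h2]
    exact hx0 C (Ext.refl F p G hC.good) D h2 h0
  have hE2 : Ext F p G C1 C2 := ext_add hG2 fun D hD h0 => by
    have h2 : Adm C1.t D := hD.comp (A := C1) (g := some) fun _ => rfl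
    rw [hDv _ D h2, hx0 C1 hE1 D h2 h0, neg_zero]
  obtain ⟨C3, hC3, h3⟩ := ext_sq (F := F) (p := p) hX hG2 (some none) hut
  obtain ⟨k, hk⟩ := hC3.mem none
  obtain ⟨C4, hC4, h4⟩ := ext_sq (F := F) (p := p) hX hC3.good k (by rw [hk]; exact hvt)
  refine ⟨C4, hC.trans (((hE1.trans hE2).trans hC3).trans hC4), fun D hD => ?_⟩
  have h5 := h3 D (hC4.adm hD)
  have h6 := h4 D hD
  rw [hk] at h6
  change D (u ^ 2) = 2 * u * D u at h5
  change D (v ^ 2) = 2 * v * D v at h6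
  have e1 : x ^ 2 = (1 / 2 : ℚ) • (u ^ 2 + v ^ 2) + (m : ℂ) ^ 2 := by
    rw [hu, hv, Rat.smul_def]
    push_cast
    linear_combination (-(m : ℂ) ^ 2) * Complex.I_sq
  rw [e1, map_add, map_smul, map_add, h5, h6, hD.alg _ ((alg_nat m).pow 2), add_zero,
    hDu C4 D hD, hDv C4 D hD, h1 D ((((hE1.trans hE2).trans hC3).trans hC4).adm hD),
    Rat.smul_def, hu, hv]
  simp only [Pi.smul_apply, smul_eq_mul, mul_assoc, ← Finset.mul_sum]
  push_cast
  ring

/-- **Products.** -/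
theorem Rz.mul (hX : Cls X G) {A : Tup} {x y : ℂ} {c d : A.κ × Option α ⊕ π → ℂ} (hx : Rz F p G A x c)
    (hy : Rz F p G A y d) : Rz F p G A (x * y) (x • d + y • c) := by
  have h1 := ((hx.add hy).sq hX).smul (1 / 2)
  have h2 := (hx.sq hX).smul (-(1 / 2))
  have h3 := (hy.sq hX).smul (-(1 / 2))
  refine ((h1.add h2).add h3).congr ?_ ?_
  · push_cast
    ring
  · funext i
    simp only [Pi.add_apply, Pi.smul_apply, smul_eq_mul]
    push_cast
    ring

/-- **The chain rule.** -/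
theorem Rz.poly (hX : Cls X G) (A : Tup) (P : MvPolynomial (A.κ × Option α ⊕ π) ℚ) :
    Rz F p G A (aeval (co F p A.t) P) fun y => aeval (co F p A.t) (pderiv y P) := by
  classical
  induction P using MvPolynomial.induction_on with
  | C q =>
    refine (Rz.const A q).congr (by rw [aeval_C, eq_ratCast]) ?_
    funext y
    rw [pderiv_C, map_zero]
    rfl
  | add p q hp hq =>
    refine (hp.add hq).congr (by rw [map_add]) ?_
    funext y
    rw [map_add, map_add]
    rfl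
  | mul_X P i hp =>
    refine (hp.mul hX (Rz.coord A i)).congr (by rw [map_mul, aeval_X]) ?_
    funext y
    rw [pderiv_mul, map_add, map_mul, map_mul, aeval_X, pderiv_X, Pi.add_apply, Pi.smul_apply,
      Pi.smul_apply, smul_eq_mul, smul_eq_mul]
    by_cases h : i = y
    · subst h
      rw [Pi.single_eq_same, Pi.single_eq_same, map_one]
      ring
    · rw [Pi.single_eq_of_ne (Ne.symm h), Pi.single_eq_of_ne h, map_zero]
      ring

/-- finitely many polynomials -/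
theorem Rz.polys (hX : Cls X G) {A : Tup} (hA : G A) {τ : Type} (s : Finset τ)
    (P : τ → MvPolynomial (A.κ × Option α ⊕ π) ℚ) :
    ∃ C, Ext F p G A C ∧ ∀ D : ℂ →ₗ[ℚ] ℂ, Adm C.t D → ∀ j ∈ s,
      D (aeval (co F p A.t) (P j)) =
        ∑ y, aeval (co F p A.t) (pderiv y (P j)) * D (co F p A.t y) := by
  classical
  induction s using Finset.induction_on with
  | empty => exact ⟨A, Ext.refl F p G hA, fun D _ j hj => absurd hj (Finset.notMem_empty j)⟩
  | insert a s _ ih =>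
    obtain ⟨B, hB, h1⟩ := ih
    obtain ⟨C, hC, h2⟩ := Rz.poly hX A (P a) B hB
    refine ⟨C, hB.trans hC, fun D hD j hj => ?_⟩
    rcases Finset.mem_insert.1 hj with rfl | hj
    · exact h2 D hD
    · exact h1 D (hC.adm hD) j hj

end Pool.Agent.N113.SG
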