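import Pool.Agent.N113.SG.Ext

/-!
# Transcendental points
-/

set_option autoImplicit false
set_option linter.unusedSectionVars false

namespace Pool.Agent.N113.SG

open Module

theorem quad {x A B C : ℂ} (hx : Transcendental ℚ x) (hA : IsAlgebraic ℚ A)
    (hB : IsAlgebraic ℚ B) (hC : IsAlgebraic ℚ C) (h : A * x ^ 2 + B * x + C = 0) :
    A = 0 ∧ B = 0 ∧ C = 0 := by
  let K := algebraicClosure ℚ ℂ
  let A' : K := ⟨A, mem_algebraicClosure_iff.2 hA⟩
  let B' : K := ⟨B, mem_algebraicClosure_iff.2 hB⟩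
  let C' : K := ⟨C, mem_algebraicClosure_iff.2 hC⟩
  let P : Polynomial K := Polynomial.C A' * Polynomial.X ^ 2 + Polynomial.C B' * Polynomial.X +
    Polynomial.C C'
  have hP : Polynomial.aeval x P = 0 := by
    simp only [P, map_add, map_mul, map_pow, Polynomial.aeval_C, Polynomial.aeval_X]
    exact h
  have hK : Algebra.IsAlgebraic ℚ K := algebraicClosure.isAlgebraic ℚ ℂ
  have hP0 : P = 0 := by
    by_contra hP0
    have h1 : IsAlgebraic K x := ⟨P, hP0, hP⟩
    exact hx (h1.restrictScalars ℚ)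
  have hc : ∀ n, P.coeff n = 0 := fun n => by rw [hP0, Polynomial.coeff_zero]
  have h2 := hc 2
  have h1 := hc 1
  have h0 := hc 0
  simp only [P, Polynomial.coeff_add, Polynomial.coeff_C_mul, Polynomial.coeff_X_pow,
    Polynomial.coeff_X, Polynomial.coeff_C] at h0 h1 h2
  norm_num at h0 h1 h2
  exact ⟨congrArg Subtype.val h2, congrArg Subtype.val h1, congrArg Subtype.val h0⟩

theorem quart {u : ℂ} (hu : Transcendental ℚ u) (q : Fin 5 → ℚ)
    (h : ∑ i, (q i : ℂ) * u ^ (i : ℕ) = 0) : ∀ i, q i = 0 := by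
  let P : Polynomial ℚ := ∑ i : Fin 5, Polynomial.monomial (i : ℕ) (q i)
  have hP : Polynomial.aeval u P = 0 := by
    rw [map_sum]
    simp only [Polynomial.aeval_monomial, eq_ratCast]
    exact h
  have hP0 : P = 0 := by
    by_contra hP0
    exact hu ⟨P, hP0, hP⟩
  intro i
  have h1 : P.coeff (i : ℕ) = 0 := by rw [hP0, Polynomial.coeff_zero]
  rw [Polynomial.finsetSum_coeff, Finset.sum_eq_single i] at h1
  · rw [Polynomial.coeff_monomial, if_pos rfl] at h1
    exact h1
  · intro k _ hk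
    rw [Polynomial.coeff_monomial, if_neg (fun h => hk (Fin.ext h))]
  · intro h
    exact absurd (Finset.mem_univ _) h

theorem alg_rat (q : ℚ) : IsAlgebraic ℚ (q : ℂ) := isAlgebraic_algebraMap q

theorem alg_int (n : ℤ) : IsAlgebraic ℚ (n : ℂ) := by
  have h := alg_rat n
  rw [Rat.cast_intCast] at h
  exact h

theorem alg_nat (n : ℕ) : IsAlgebraic ℚ (n : ℂ) := by
  have h := alg_rat n
  rw [Rat.cast_natCast] at h
  exact h

theorem alg_I : IsAlgebraic ℚ Complex.I := by
  refine ⟨Polynomial.X ^ 2 + 1, ?_, by simp⟩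
  intro h
  have h2 := congrArg (Polynomial.eval 0) h
  simp at h2

/-- the parameters for which the point of the family is equivalent to a point of the tuple -/
def bad (A : Tup) (e : ℕ → ℂ) : Set ℕ := {c | 1 ≤ c ∧ ∃ i, Fl (A.t i) (e c)}

theorem bad_finite (A : Tup) (e : ℕ → ℂ) (he : ∀ c c' : ℕ, 1 ≤ c → 1 ≤ c' →
    Fl (e c) (e c') → c = c') : (bad A e).Finite := by
  have h1 : bad A e = ⋃ i, {c | 1 ≤ c ∧ Fl (A.t i) (e c)} := by
    ext c
    simp only [bad, Set.mem_ofPred_eq, Set.mem_iUnion]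
    constructor
    · rintro ⟨h, i, h2⟩
      exact ⟨i, h, h2⟩
    · rintro ⟨i, h, h2⟩
      exact ⟨h, i, h2⟩
  rw [h1]
  refine Set.finite_iUnion fun i => Set.Subsingleton.finite ?_
  rintro c ⟨hc, h2⟩ c' ⟨hc', h3⟩
  exact he c c' hc hc' (h2.symm.trans h3)

/-- the points `m I + x` are inequivalent -/
theorem inj_lin {x : ℂ} (hx : Transcendental ℚ x) (c c' : ℕ) (w w' : ℂ)
    (hw : w = c * Complex.I + x) (hw' : w' = c' * Complex.I + x) (h : Fl w w') :
    c = c' := by
  obtain ⟨A, B, C, D, h1, h2⟩ := h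
  rw [hw, hw'] at h2
  have h3 : (C : ℂ) * x ^ 2 + ((C : ℂ) * (c * Complex.I) + D + c' * Complex.I * C - A) * x +
      (c' * Complex.I * (C * (c * Complex.I) + D) - A * (c * Complex.I) - B) = 0 := by
    linear_combination h2
  have hcI : IsAlgebraic ℚ ((c : ℂ) * Complex.I) := (alg_nat c).mul alg_I
  have hcI' : IsAlgebraic ℚ ((c' : ℂ) * Complex.I) := (alg_nat c').mul alg_I
  obtain ⟨h4, h5, h6⟩ := quad hx (alg_rat C)
    (((((alg_rat C).mul hcI).add (alg_rat D)).add (hcI'.mul (alg_rat C))).sub (alg_rat A))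
    (((hcI'.mul (((alg_rat C).mul hcI).add (alg_rat D))).sub ((alg_rat A).mul hcI)).sub
      (alg_rat B)) h3
  have hC : C = 0 := by exact_mod_cast h4
  subst hC
  rw [Rat.cast_zero] at h5 h6
  have hD : (D : ℂ) = A := by linear_combination h5
  have hD' : D = A := by exact_mod_cast hD
  subst hD'
  have h7 := congrArg Complex.im h6
  simp at h7
  have hD0 : D ≠ 0 := by
    rintro rfl
    exact h1 (by ring)
  have hD0' : ((D : ℚ) : ℝ) ≠ 0 := by exact_mod_cast hD0
  have h8 : ((c' : ℝ) - c) * ((D : ℚ) : ℝ) = 0 := by linear_combination h7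
  have h9 : (c' : ℝ) - c = 0 := (mul_eq_zero.1 h8).resolve_right hD0'
  have h10 : (c' : ℝ) = c := by linarith
  exact_mod_cast h10.symm

/-- the points `m I + x` and `m I - x` are inequivalent for `m ≥ 1` -/
theorem ne_lin {x : ℂ} (hx : Transcendental ℚ x) (c c' : ℕ) (hc1 : 1 ≤ c) (w w' : ℂ)
    (hw : w = c * Complex.I + x) (hw' : w' = c' * Complex.I - x) : ¬ Fl w w' := by
  rintro ⟨A, B, C, D, h1, h2⟩
  rw [hw, hw'] at h2
  have h3 : (-(C : ℂ)) * x ^ 2 + (-((C : ℂ) * (c * Complex.I)) - D + c' * Complex.I * C - A) * x +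
      (c' * Complex.I * (C * (c * Complex.I) + D) - A * (c * Complex.I) - B) = 0 := by
    linear_combination h2
  have hcI : IsAlgebraic ℚ ((c : ℂ) * Complex.I) := (alg_nat c).mul alg_I
  have hcI' : IsAlgebraic ℚ ((c' : ℂ) * Complex.I) := (alg_nat c').mul alg_I
  obtain ⟨h4, h5, h6⟩ := quad hx (alg_rat C).neg
    ((((((alg_rat C).mul hcI).neg.sub (alg_rat D)).add (hcI'.mul (alg_rat C))).sub (alg_rat A)))
    (((hcI'.mul (((alg_rat C).mul hcI).add (alg_rat D))).sub ((alg_rat A).mul hcI)).sub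
      (alg_rat B)) h3
  have hC : C = 0 := by
    have : (C : ℂ) = 0 := by linear_combination -h4
    exact_mod_cast this
  subst hC
  rw [Rat.cast_zero] at h5 h6
  have hD : (A : ℂ) = -D := by linear_combination -h5
  have hD' : A = -D := by exact_mod_cast hD
  subst hD'
  have h7 := congrArg Complex.im h6
  simp at h7
  have hD0 : D ≠ 0 := by
    rintro rfl
    exact h1 (by ring)
  have hD0' : ((D : ℚ) : ℝ) ≠ 0 := by exact_mod_cast hD0
  have h8 : ((c' : ℝ) + c) * ((D : ℚ) : ℝ) = 0 := by linear_combination h7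
  have h9 : (c' : ℝ) + c = 0 := (mul_eq_zero.1 h8).resolve_right hD0'
  have h10 : (1 : ℝ) ≤ c := by exact_mod_cast hc1
  have h11 : (0 : ℝ) ≤ c' := by positivity
  linarith

/-- the points `-c / (u (u + c))` are inequivalent -/
theorem inj_frac {u : ℂ} (hu : Transcendental ℚ u) (c c' : ℕ) (hc : 1 ≤ c) (hc' : 1 ≤ c')
    (w w' : ℂ) (hw : w * (u * (u + c)) = -c) (hw' : w' * (u * (u + c')) = -c')
    (h : Fl w w') : c = c' := by
  obtain ⟨A, B, C, D, h1, h2⟩ := h
  have h3 : (B : ℂ) * (u * (u + c)) * (u * (u + c')) - c * A * (u * (u + c')) +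
      c' * D * (u * (u + c)) - c * c' * C = 0 := by
    linear_combination -(u * (u + c)) * (u * (u + c')) * h2 +
      (u * (u + c)) * (D : ℂ) * hw' - (u * (u + c')) * (A : ℂ) * hw + (C : ℂ) * (w : ℂ) *
        (u * (u + c)) * hw' - (C : ℂ) * c' * hw
  have h4 := quart hu ![-(c * c' * C), -(c * c' * A) + c * c' * D, B * c * c' - c * A + c' * D,
    B * (c + c'), B] (by
      simp only [Fin.sum_univ_five]
      simp
      linear_combination h3)
  have h40 : -(c * c' * C : ℚ) = 0 := h4 0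
  have h41 : (-(c * c' * A) + c * c' * D : ℚ) = 0 := h4 1
  have h42 : (B * c * c' - c * A + c' * D : ℚ) = 0 := h4 2
  have h44 : B = 0 := h4 4
  subst h44
  have hcq : (c : ℚ) ≠ 0 := by exact_mod_cast (by omega : c ≠ 0)
  have hcq' : (c' : ℚ) ≠ 0 := by exact_mod_cast (by omega : c' ≠ 0)
  have h5 : D = A := by
    have h6 : (c : ℚ) * c' * (D - A) = 0 := by linear_combination h41
    have h7 := (mul_eq_zero.1 h6).resolve_left (mul_ne_zero hcq hcq')
    linarith
  subst h5
  have hD : D ≠ 0 := by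
    rintro rfl
    exact h1 (by ring)
  have h8 : ((c' : ℚ) - c) * D = 0 := by linear_combination h42
  have h9 := (mul_eq_zero.1 h8).resolve_right hD
  have h10 : (c : ℚ) = c' := by linarith
  exact_mod_cast h10

end Pool.Agent.N113.SG
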